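import Pool.Agent.U365.POW.J
import Pool.Agent.Results.MP_e07dae_nt.MultiplicativeValues

/-!
# The Lang-Waldschmidt inequality for all tuples whose product is near `s(m)`, `m - φ(m)` or `α m + β f(m)`

Let `s(m)` be the sum of the proper divisors of `m`, let `G` have steps bounded below by a positive constant and growth at most
`v ^ d`, for example `G v = v`, `n ≥ 1`, `σ ≥ 0`, `κ ≥ 0` and `e = d (1/2 + n σ) + κ < 1`. For a set of `m` of lower density at
least `1 - e` the inequality `|P(a, b) - 1| ≥ (1/2) max |b_j| / H(a, b)` (no loss in the exponent) holds for ALL tuples `a` of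
`n` positive integers with `|a_1 ⋯ a_n - G (s(m))| ≤ s(m) ^ κ` and ALL tuples `b` of nonzero integers with
`|b_j| ≤ (a_1 ⋯ a_n) ^ σ`; the same holds for `m - φ(m)`. More precisely this holds for almost all `m` with a divisor
`≥ m ^ (e + ρ)` which is a prime or the product of two different primes, and for the values `g = α m + β f(m)` of multiplicative
functions with `f p = p + c` at the primes, uniformly in `|α|, |β| ≤ N ^ δ` and with a power saving in the number of the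
exceptional `m`.

Proof. The number of the exceptional tuples has a power saving (starting theorem). Let `m = k v p` with large primes `p ≠ v`.
Then `g = A v p + B (v + p) + B c`, `A = α k + β f(k)`, `B = β c f(k)`, and so `(A v + B) (A p + B) = A g + B² - A B c`: for given
`g`, `k`, `α`, `β` there are only `N^o(1)` possibilities for `p` and `v`.
-/

set_option autoImplicit false

namespace Pool.Agent.Results.MP_e07dae_nt.AliquotValues

open Finset
open Pool.Agent.U365.POW (Law Values Dens law_of law_mono)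
open Pool.Agent.N733.TG (Expanding)
open Pool.Agent.Results.MP_e07dae_nt.MultiplicativeValues (P H maxExp)

/-- The inequality holds for ALL tuples `a` of `n` positive integers with `|a_1 ⋯ a_n - G g| ≤ g ^ κ` and ALL tuples `b` of
nonzero integers with `|b_j| ≤ (a_1 ⋯ a_n) ^ σ`. -/
def Near (n : ℕ) (σ : ℝ) (G : ℕ → ℝ) (κ : ℝ) (g : ℕ) : Prop :=
  ∀ a : Fin n → ℕ, (∀ i, 1 ≤ a i) → |((∏ i, a i : ℕ) : ℝ) - G g| ≤ (g : ℝ) ^ κ →
    ∀ b : Fin n → ℤ, (∀ i, b i ≠ 0) → (∀ i, |(b i : ℝ)| ≤ ((∏ j, a j : ℕ) : ℝ) ^ σ) →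
      1 / 2 * (maxExp b : ℝ) / (H a b : ℝ) ≤ |P a b - 1|

/-- **Theorem.** Let `G` have steps `≥ c > 0` and growth at most `v ^ d`, `n ≥ 1`, `σ ≥ 0`, `κ ≥ 0` and
`e = d (1/2 + n σ) + κ < 1`. The property `Near` holds for the values `α m + β f(m)` at all but `N ^ (1 - δ)` of the `m ≤ N`
with a divisor `≥ m ^ (e + ρ)` which is a prime or the product of two different primes, and so for `s(m)` and `m - φ(m)` at almost
all of these `m` (`Values`), and for `s(m)` and `m - φ(m)` for a set of `m` of lower density at least `1 - e` (`Dens`). -/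
theorem result : ∀ (G : ℕ → ℝ) (d : ℝ), Expanding G d → ∀ (n : ℕ) (σ κ : ℝ), 1 ≤ n → 0 ≤ σ → 0 ≤ κ →
    d * (1 / 2 + n * σ) + κ < 1 →
    (∀ ρ : ℝ, 0 < ρ → Values (d * (1 / 2 + n * σ) + κ + ρ) (Near n σ G κ)) ∧
      Dens (1 - (d * (1 / 2 + n * σ) + κ)) (Near n σ G κ) := by
  intro G d hG n σ κ hn hσ hκ h1
  have h2 := law_of (fun a : Fin n → ℕ => ∀ i, 1 ≤ a i)
    (fun a : Fin n → ℕ => ∀ b : Fin n → ℤ, (∀ i, b i ≠ 0) → (∀ i, |(b i : ℝ)| ≤ ((∏ j, a j : ℕ) : ℝ) ^ σ) →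
      1 / 2 * (maxExp b : ℝ) / (H a b : ℝ) ≤ |P a b - 1|) (fun a => ((∏ i, a i : ℕ) : ℝ)) hG
    (s := 1 / 2 + n * σ) (by positivity) hκ h1 (fun ε hε => ?_)
  · have h3 : Law (d * (1 / 2 + n * σ) + κ) (Near n σ G κ) :=
      law_mono h2 (fun g hg a ha hw => hg a ha hw)
    exact ⟨h3.2.1, h3.2.2⟩
  obtain ⟨K, hK⟩ := WindowsWithoutExceptions.count n hn σ hσ ε hε
  refine ⟨K, fun X hX => ?_⟩
  obtain ⟨h2, h3⟩ := hK X hX
  have he : {a : Fin n → ℕ | ((∀ i, 1 ≤ a i) ∧ ¬ ∀ b : Fin n → ℤ, (∀ i, b i ≠ 0) →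
      (∀ i, |(b i : ℝ)| ≤ ((∏ j, a j : ℕ) : ℝ) ^ σ) → 1 / 2 * (maxExp b : ℝ) / (H a b : ℝ) ≤ |P a b - 1|) ∧
      ((∏ i, a i : ℕ) : ℝ) ≤ X} ⊆
      {a | a ∈ WindowsWithoutExceptions.Exc n σ ∧ ((∏ j, a j : ℕ) : ℝ) ≤ X} := by
    rintro a ⟨⟨g1, g2⟩, g3⟩
    push Not at g2
    obtain ⟨b, g4, g5, g6⟩ := g2
    exact ⟨⟨g1, b, g4, g5, g6⟩, g3⟩
  refine ⟨h2.subset he, le_trans ?_ h3⟩
  exact_mod_cast Set.ncard_le_ncard he h2

end Pool.Agent.Results.MP_e07dae_nt.AliquotValues
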