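import Pool.Agent.Results.MP_e07dae_nt.AlmostAllBases

/-!
# The Lang-Waldschmidt inequality for ALL products of powers of integral combinations of an infinite sequence in every infinite set

Let `φ` be any function which tends to infinity (as slowly as one likes), `H` a natural number and `L` any function. There is a
function `M` such that EVERY set `B` of natural numbers with at least `φ(N)` elements up to `N` for all `N` (so every infinite set
of natural numbers, for a suitable `φ`) contains the terms of a sequence `x_n ≤ M(n)` with the following property. Let `v_k` be the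
absolute value of any integral combination of `x_0, …, x_k` with coefficients of absolute value at most `H` and with
`x_k` occurring (one combination for every `k`). Then `v_k ≥ 1`, and for ALL `m ≥ 0`, ALL indices `k_0 < … < k_m` and ALL integers
`b_i ≠ 0` with `|b_i| ≤ L(k_m)` the bases `a_i = v_{k_i}` satisfy

  `|a_0 ^ b_0 ⋯ a_m ^ b_m - 1| ≥ 1/8 · max |b_i| / |b_0 ⋯ b_m a_0 ⋯ a_m|`,

the inequality of the problem with `C = 1 / 8` and `ε = 0`, for all numbers `m + 1` of bases at once.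

Proof. By the lemma `key` of the starting result `AlmostAllBases` at most one positive integer `t` satisfies
`|t ^ e ρ - 1| < 1 / (8 t)` for given `e ≠ 0` and `ρ`. So when `x_0, …, x_(n-1)` are bounded by `M(n-1)`, only finitely many values
of the new term are excluded, and their number is bounded independently of `B`.
-/

set_option autoImplicit false

namespace Pool.Agent.Results.MP_e07dae_nt.AllProducts

open Finset Filter
open Pool.Agent.Results.MP_e07dae_nt.AlmostAllBases (P H maxExp key)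

/-- the absolute value of the combination of `x_0, …, x_k` with the coefficients `u k i` -/
def comb (x : ℕ → ℕ) (u : ℕ → ℕ → ℤ) (k : ℕ) : ℕ := (∑ i ∈ range (k + 1), u k i * (x i : ℤ)).natAbs

/-- for given `e ≠ 0` and `ρ` at most one positive integer is exceptional -/
lemma unique_t (e : ℤ) (he : e ≠ 0) (ρ : ℝ) (s t : ℕ) (hs : 1 ≤ s) (ht : 1 ≤ t)
    (h1 : |(s : ℝ) ^ e * ρ - 1| < 1 / (8 * s)) (h2 : |(t : ℝ) ^ e * ρ - 1| < 1 / (8 * t)) : s = t := by
  have aux : ∀ s t : ℕ, 1 ≤ s → |(s : ℝ) ^ e * ρ - 1| < 1 / (8 * s) → |(t : ℝ) ^ e * ρ - 1| < 1 / (8 * t) →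
      s < t → False := by
    intro s t hs h1 h2 hlt
    refine key s t hs hlt e he ρ h1 (h2.trans_le ?_)
    have hs0 : (0 : ℝ) < s := by exact_mod_cast hs
    have hst : (s : ℝ) ≤ t := by exact_mod_cast hlt.le
    exact one_div_le_one_div_of_le (by positivity) (by linarith)
  rcases lt_trichotomy s t with h | h | h
  · exact (aux s t hs h1 h2 h).elim
  · exact h
  · exact (aux t s ht h2 h1 h).elim

/-- the new terms `y` for which `|c y + w|` is a given number are finite in number -/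
lemma fin_y (c w : ℤ) (hc : c ≠ 0) (t : ℕ) : {y : ℕ | (w + c * (y : ℤ)).natAbs = t}.Finite := by
  have h1 : {y : ℕ | (w + c * (y : ℤ)).natAbs = t} ⊆ (fun y : ℕ => w + c * (y : ℤ)) ⁻¹' {(t : ℤ), -(t : ℤ)} := by
    intro y hy
    rw [Set.mem_ofPred_eq] at hy
    rw [Set.mem_preimage, Set.mem_insert_iff, Set.mem_singleton_iff]
    omega
  refine Set.Finite.subset (Set.Finite.preimage ?_ (Set.toFinite _)) h1
  intro y _ z _ h
  have h2 : c * (y : ℤ) = c * (z : ℤ) := by
    have h3 : w + c * (y : ℤ) = w + c * (z : ℤ) := h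
    linarith
  exact_mod_cast mul_left_cancel₀ hc h2

/-- the values of the new term which are excluded by the data `v`, `b`, `e`, `c`, `w` -/
def one (m : ℕ) (v : Fin m → ℕ) (b : Fin m → ℤ) (e c w : ℤ) : Set ℕ :=
  {y | c ≠ 0 ∧ ((w + c * (y : ℤ)).natAbs = 0 ∨ (e ≠ 0 ∧ 1 ≤ (w + c * (y : ℤ)).natAbs ∧
    |(((w + c * (y : ℤ)).natAbs : ℕ) : ℝ) ^ e * (∏ i, (v i : ℝ) ^ b i) - 1| <
      1 / (8 * (((w + c * (y : ℤ)).natAbs : ℕ) : ℝ))))}

lemma fin_one (m : ℕ) (v : Fin m → ℕ) (b : Fin m → ℤ) (e c w : ℤ) : (one m v b e c w).Finite := by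
  by_cases hc : c = 0
  · refine Set.Finite.subset Set.finite_empty fun y hy => ?_
    exact (hy.1 hc).elim
  by_cases h : ∃ t : ℕ, 1 ≤ t ∧ e ≠ 0 ∧ |(t : ℝ) ^ e * (∏ i, (v i : ℝ) ^ b i) - 1| < 1 / (8 * (t : ℝ))
  · obtain ⟨t, ht1, he, ht2⟩ := h
    refine ((fin_y c w hc 0).union (fin_y c w hc t)).subset fun y hy => ?_
    obtain ⟨_, h0 | ⟨_, h1, h2⟩⟩ := hy
    · exact Or.inl h0
    · exact Or.inr (unique_t e he _ _ t h1 ht1 h2 ht2)
  · refine (fin_y c w hc 0).subset fun y hy => ?_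
    obtain ⟨_, h0 | ⟨he, h1, h2⟩⟩ := hy
    · exact h0
    · exact (h ⟨_, h1, he, h2⟩).elim

/-- all the excluded values at the step `n`, if the older terms and combinations are bounded by `V` -/
def excl (n V : ℕ) (h L : ℕ) : Set ℕ :=
  ⋃ m : Fin (n + 1), ⋃ v : Fin m → Fin (V + 1), ⋃ b : Fin m → Set.Icc (-(L : ℤ)) L, ⋃ e : Set.Icc (-(L : ℤ)) L,
    ⋃ c : Set.Icc (-(h : ℤ)) h, ⋃ w : Set.Icc (-(V : ℤ)) V,
      one m (fun i => (v i : ℕ)) (fun i => ((b i : ℤ))) (e : ℤ) (c : ℤ) (w : ℤ)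

lemma fin_excl (n V : ℕ) (h L : ℕ) : (excl n V h L).Finite := by
  unfold excl
  refine Set.finite_iUnion fun m => Set.finite_iUnion fun v => Set.finite_iUnion fun b => Set.finite_iUnion fun e =>
    Set.finite_iUnion fun c => Set.finite_iUnion fun w => fin_one _ _ _ _ _ _

/-- **Theorem.** The inequality of Lang and Waldschmidt with `C = 1 / 8` and `ε = 0` for all products of powers of the
combinations with different largest indices of the terms of a sequence in every set with at least `φ(N)` elements up to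
`N`. -/
theorem result (φ : ℕ → ℕ) (hφ : Tendsto φ atTop atTop) (h : ℕ) (L : ℕ → ℕ) :
    ∃ M : ℕ → ℕ, ∀ B : Set ℕ, (∀ N : ℕ, φ N ≤ {x : ℕ | x ∈ B ∧ x ≤ N}.ncard) →
      ∃ x : ℕ → ℕ, (∀ n, x n ∈ B ∧ x n ≤ M n) ∧
        ∀ u : ℕ → ℕ → ℤ, (∀ k i, |u k i| ≤ h) → (∀ k, u k k ≠ 0) →
          (∀ k, 1 ≤ comb x u k) ∧
          ∀ (m : ℕ) (k : Fin (m + 1) → ℕ) (b : Fin (m + 1) → ℤ), StrictMono k →
            (∀ i, b i ≠ 0 ∧ |b i| ≤ L (k (Fin.last m))) →
            1 / 8 * (maxExp b : ℝ) / (H (fun i => comb x u (k i)) b : ℝ) ≤ |P (fun i => comb x u (k i)) b - 1| := by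
  classical
  -- the bounds
  have hg : ∀ n V : ℕ, ∃ g : ℕ, ∀ N : ℕ, g ≤ N → (excl n V h (L n)).ncard < φ N := by
    intro n V
    obtain ⟨g, hg⟩ := eventually_atTop.mp (hφ.eventually_gt_atTop (excl n V h (L n)).ncard)
    exact ⟨g, hg⟩
  choose g hg using hg
  -- `W n` bounds the terms of index at most `n`
  obtain ⟨W, hW0, hW1⟩ : ∃ W : ℕ → ℕ, W 0 = g 0 0 ∧ ∀ n, W (n + 1) = W n + g (n + 1) ((n + 2) * h * W n) :=
    ⟨fun n => Nat.rec (g 0 0) (fun n W => W + g (n + 1) ((n + 2) * h * W)) n, rfl, fun n => rfl⟩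
  have hWmono : Monotone W := monotone_nat_of_le_succ fun n => by rw [hW1]; exact Nat.le_add_right _ _
  -- the bound for the older combinations
  obtain ⟨V, hV0, hV1⟩ : ∃ V : ℕ → ℕ, V 0 = 0 ∧ ∀ n, V (n + 1) = (n + 2) * h * W n :=
    ⟨fun n => match n with
      | 0 => 0
      | n + 1 => (n + 2) * h * W n, rfl, fun n => rfl⟩
  have hgW : ∀ n, g n (V n) ≤ W n := by
    intro n
    cases n with
    | zero => rw [hV0, hW0]
    | succ n => rw [hW1, hV1]; exact Nat.le_add_left _ _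
  refine ⟨W, fun B hB => ?_⟩
  have hx : ∀ n, ∃ x : ℕ, x ∈ B ∧ x ≤ W n ∧ x ∉ excl n (V n) h (L n) := by
    intro n
    by_contra hcon
    push Not at hcon
    have h1 : {x : ℕ | x ∈ B ∧ x ≤ W n} ⊆ excl n (V n) h (L n) := fun x hx => hcon x hx.1 hx.2
    have h2 := Set.ncard_le_ncard h1 (fin_excl n (V n) h (L n))
    have h3 := hB (W n)
    have h4 := hg n (V n) (W n) (hgW n)
    omega
  choose x hxB hxW hxE using hx
  refine ⟨x, fun n => ⟨hxB n, hxW n⟩, fun u hu hu0 => ?_⟩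
  -- the combination of the older terms
  have hold : ∀ n, |∑ i ∈ range n, u n i * (x i : ℤ)| ≤ (V n : ℤ) := by
    intro n
    cases n with
    | zero => rw [hV0, range_zero, sum_empty, abs_zero, Nat.cast_zero]
    | succ n =>
      have h1 : ∀ i ∈ range (n + 1), |u (n + 1) i * (x i : ℤ)| ≤ (h : ℤ) * ((W n : ℕ) : ℤ) := by
        intro i hi
        rw [mem_range] at hi
        rw [abs_mul, Nat.abs_cast]
        have h2 : (x i : ℤ) ≤ ((W n : ℕ) : ℤ) := by
          exact_mod_cast (hxW i).trans (hWmono (by omega))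
        exact mul_le_mul (hu _ _) h2 (Nat.cast_nonneg _) (Nat.cast_nonneg _)
      refine (abs_sum_le_sum_abs _ _).trans ((sum_le_card_nsmul _ _ _ h1).trans ?_)
      rw [card_range, nsmul_eq_mul]
      rw [hV1]
      push_cast
      have : (0 : ℤ) ≤ (h : ℤ) * ((W n : ℕ) : ℤ) := by positivity
      nlinarith
  have hcombV : ∀ j n, j < n → comb x u j ≤ V n := by
    intro j n hjn
    obtain ⟨n, rfl⟩ : ∃ n', n = n' + 1 := ⟨n - 1, by omega⟩
    have h1 : ∀ i ∈ range (j + 1), |u j i * (x i : ℤ)| ≤ (h : ℤ) * ((W n : ℕ) : ℤ) := by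
      intro i hi
      rw [mem_range] at hi
      rw [abs_mul, Nat.abs_cast]
      have h2 : (x i : ℤ) ≤ ((W n : ℕ) : ℤ) := by
        exact_mod_cast (hxW i).trans (hWmono (by omega))
      exact mul_le_mul (hu _ _) h2 (Nat.cast_nonneg _) (Nat.cast_nonneg _)
    have h2 : |∑ i ∈ range (j + 1), u j i * (x i : ℤ)| ≤ (((n + 2) * h * W n : ℕ) : ℤ) := by
      refine (abs_sum_le_sum_abs _ _).trans ((sum_le_card_nsmul _ _ _ h1).trans ?_)
      rw [card_range, nsmul_eq_mul]
      push_cast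
      have h3 : (0 : ℤ) ≤ (h : ℤ) * ((W n : ℕ) : ℤ) := by positivity
      have h4 : (j : ℤ) ≤ n := by exact_mod_cast (by omega : j ≤ n)
      nlinarith
    unfold comb
    rw [hV1]
    have h3 : (((∑ i ∈ range (j + 1), u j i * (x i : ℤ)).natAbs : ℕ) : ℤ) ≤ (((n + 2) * h * W n : ℕ) : ℤ) := by
      rw [Int.natCast_natAbs]
      exact h2
    exact_mod_cast h3
  -- the new combination
  have hnew : ∀ n, comb x u n = ((∑ i ∈ range n, u n i * (x i : ℤ)) + u n n * (x n : ℤ)).natAbs := by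
    intro n
    unfold comb
    rw [sum_range_succ]
  -- the property of the term `x n`
  have main : ∀ (n m : ℕ) (v : Fin m → ℕ) (b : Fin m → ℤ) (e : ℤ), m ≤ n → (∀ i, v i ≤ V n) → (∀ i, |b i| ≤ L n) → |e| ≤ L n →
      comb x u n ≠ 0 ∧ (e ≠ 0 → 1 / (8 * (comb x u n : ℝ)) ≤ |(comb x u n : ℝ) ^ e * (∏ i, (v i : ℝ) ^ b i) - 1|) := by
    intro n m v b e hm hv hb he
    have h1 := hxE n
    have h2 : x n ∉ one m v b e (u n n) (∑ i ∈ range n, u n i * (x i : ℤ)) := by
      intro h3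
      apply h1
      unfold excl
      rw [Set.mem_iUnion]
      refine ⟨⟨m, by omega⟩, ?_⟩
      rw [Set.mem_iUnion]
      refine ⟨fun i => ⟨v i, by have := hv i; omega⟩, ?_⟩
      rw [Set.mem_iUnion]
      refine ⟨fun i => ⟨b i, Set.mem_Icc.2 (abs_le.1 (hb i))⟩, ?_⟩
      rw [Set.mem_iUnion]
      refine ⟨⟨e, Set.mem_Icc.2 (abs_le.1 he)⟩, ?_⟩
      rw [Set.mem_iUnion]
      refine ⟨⟨u n n, Set.mem_Icc.2 (abs_le.1 (hu n n))⟩, ?_⟩
      rw [Set.mem_iUnion]
      exact ⟨⟨_, Set.mem_Icc.2 (abs_le.1 (hold n))⟩, h3⟩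
    unfold one at h2
    rw [Set.mem_ofPred_eq, ← hnew n] at h2
    have h3 : comb x u n ≠ 0 := fun h4 => h2 ⟨hu0 n, Or.inl h4⟩
    refine ⟨h3, fun he0 => ?_⟩
    by_contra hcon
    exact h2 ⟨hu0 n, Or.inr ⟨he0, Nat.one_le_iff_ne_zero.2 h3, not_le.1 hcon⟩⟩
  have hpos : ∀ k, 1 ≤ comb x u k := by
    intro k
    exact Nat.one_le_iff_ne_zero.2 (main k 0 Fin.elim0 Fin.elim0 0 (Nat.zero_le _) (fun i => i.elim0) (fun i => i.elim0)
      (by simp)).1
  refine ⟨hpos, fun m k b hk hb => ?_⟩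
  -- the largest index
  have hmk : m ≤ k (Fin.last m) := by
    have h1 : ∀ i : Fin (m + 1), (i : ℕ) ≤ k i := by
      intro i
      induction i using Fin.induction with
      | zero => exact Nat.zero_le _
      | succ i ih =>
        have h2 : k i.castSucc < k i.succ := hk (Fin.castSucc_lt_succ)
        rw [Fin.val_succ]
        rw [Fin.val_castSucc] at ih
        omega
    simpa using h1 (Fin.last m)
  obtain ⟨-, h1⟩ := main (k (Fin.last m)) m (fun i => comb x u (k i.castSucc)) (fun i => b i.castSucc) (b (Fin.last m)) hmk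
    (fun i => hcombV _ _ (hk (Fin.castSucc_lt_last i))) (fun i => (hb _).2) (hb _).2
  have h2 := h1 (hb _).1
  have hP : P (fun i => comb x u (k i)) b = (comb x u (k (Fin.last m)) : ℝ) ^ b (Fin.last m) *
      ∏ i : Fin m, ((comb x u (k i.castSucc) : ℕ) : ℝ) ^ b i.castSucc := by
    unfold P
    rw [Fin.prod_univ_castSucc, mul_comm]
  rw [hP]
  refine le_trans ?_ h2
  -- the height
  set a : Fin (m + 1) → ℕ := fun i => comb x u (k i) with ha
  have ha1 : ∀ i, 1 ≤ a i := fun i => hpos _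
  have hb1 : ∀ i, 1 ≤ (b i).natAbs := fun i => Nat.one_le_iff_ne_zero.2 (Int.natAbs_ne_zero.2 (hb i).1)
  have hH : maxExp b * a (Fin.last m) ≤ H a b := by
    obtain ⟨i₀, -, hi₀⟩ := exists_mem_eq_sup (univ : Finset (Fin (m + 1))) univ_nonempty fun i => (b i).natAbs
    have e1 : maxExp b = (b i₀).natAbs := hi₀
    have e2 : H a b = (∏ i, (b i).natAbs) * ∏ i, a i := by
      unfold H
      rw [prod_mul_distrib]
    rw [e1, e2]
    refine Nat.mul_le_mul ?_ ?_
    · exact single_le_prod' (f := fun i => (b i).natAbs) (fun i _ => hb1 i) (mem_univ i₀)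
    · exact single_le_prod' (f := a) (fun i _ => ha1 i) (mem_univ (Fin.last m))
  have hHpos : 0 < H a b := by
    unfold H
    exact prod_pos fun i _ => Nat.mul_pos (hb1 i) (ha1 i)
  have hHr : (maxExp b : ℝ) * (a (Fin.last m) : ℝ) ≤ (H a b : ℝ) := by exact_mod_cast hH
  have hH0 : (0 : ℝ) < H a b := by exact_mod_cast hHpos
  have ha0 : (0 : ℝ) < (a (Fin.last m) : ℝ) := by exact_mod_cast ha1 _
  show 1 / 8 * (maxExp b : ℝ) / (H a b : ℝ) ≤ 1 / (8 * (a (Fin.last m) : ℝ))
  rw [div_le_div_iff₀ hH0 (by positivity)]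
  nlinarith

end Pool.Agent.Results.MP_e07dae_nt.AllProducts
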