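import Pool.Agent.U536.CF.F
import Pool.Agent.Results.MP_e07dae_nt.MultiplicativeValues

/-!
# The Lang-Waldschmidt inequality for all tuples whose product is near an integer with a large common factor with a value of a multiplicative function

Let `f` be a positive multiplicative function of at most polynomial growth such that `f p ≤ M p` for the large primes `p`,
with different values at different large primes; for example Euler's function or the sum of the divisors. Let `G` have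
steps bounded below by a positive constant and growth at most `v^d`, for example `α v^d`. Let `b < 1` and `0 ≤ c < 2 b -
1`. For all `m ≤ N` but `N exp (-(log N)^c)`, for EVERY integer `w ≥ exp ((log N)^b)` with `gcd(w, f(m)) ≥ w^ρ`, the
inequality `|P(a, b) - 1| ≥ (1/2) max |b_j| / H(a, b)` (no loss in the exponent) holds for ALL tuples `a` of `n` positive
integers with `|a_1 ⋯ a_n - G w| ≤ w ^ κ` and ALL tuples `b` of nonzero integers with `|b_j| ≤ (a_1 ⋯ a_n) ^ σ`, if `n ≥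
1`, `σ ≥ 0`, `κ ≥ 0` and `d (1/2 + n σ) + κ < ρ ≤ 1`. The integers `w` include all large divisors of `f(m)` and their
multiples by small integers; for Euler's function, the orders of the elements of the group of units modulo `m`.

Proof. Write `m = k u` with `u` squarefree and composed of primes larger than `N^(1/J)`, `J = (log N)^a`, and `k ≤ exp (4
(log N)^a)`; this is possible for all `m ≤ N` but very few. If `v ∣ f(k) f(u)`, then `v = g v'` with `g ∣ f(k)` and `v' ∣
∏ f(p)`, and the number of such `u ≤ N / k` is at most `N / (k v')` times `(log N)^O(J)` times the number `τ_J(v')` of the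
ordered factorizations of `v'` into `J` factors. The inequality `τ_J^q ≤ τ_K` for `K ≥ J^q` and Hölder's inequality bound
the sum over the sparse set of the exceptional `v`. The file `MultiplicativeValues` of the starting library treats the
integers `w = f(m)`, with `N / (log N)^U` exceptions.
-/

set_option autoImplicit false

namespace Pool.Agent.Results.MP_e07dae_nt.CommonFactors

open Finset
open Pool.Agent.N733.TG (LM Expanding lm_totient lm_sigma expanding_pow)
open Pool.Agent.U536.CF (Common common_good common_of_dvd common_order)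
open Pool.Agent.Results.MP_e07dae_nt.MultiplicativeValues (P H maxExp)

/-- **The Lang-Waldschmidt inequality for all tuples whose product is near an integer with a large common factor with a value
of a multiplicative function.** Let `f` be multiplicative and positive, of at most polynomial growth, with `f p ≤ M p` at
the large primes, and injective there. Let `G` have steps `≥ a > 0` and growth at most `v^d`. Let `b < 1` and `0 ≤ c < 2 b
- 1`, `n ≥ 1`, `σ ≥ 0`, `κ ≥ 0` and `d (1/2 + n σ) + κ < ρ ≤ 1`. For all large `N`, for all `m ≤ N` but `N exp (-(log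
N)^c)`, for EVERY integer `w ≥ exp ((log N)^b)` with `gcd(w, f(m)) ≥ w^ρ`, the inequality `|P(a, b) - 1| ≥ (1/2) max |b_j|
/ H(a, b)` (no loss in the exponent) holds for ALL tuples `a` of `n` positive integers with `|a_1 ⋯ a_n - G w| ≤ w ^ κ`
and ALL tuples `b` of nonzero integers with `|b_j| ≤ (a_1 ⋯ a_n) ^ σ`. All divisors `w ≥ exp ((log N)^b)` of `f(m)` are
such integers `w`, and for Euler's function the orders `≥ exp ((log N)^b)` of the units modulo `m`. Euler's function and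
the sum of the divisors are examples of `f`, and `α v^d` with `α > 0`, `d ≥ 1` is an example of `G`. -/
theorem result :
    (∀ f : ℕ → ℕ, LM f → ∀ (G : ℕ → ℝ) (d : ℝ), Expanding G d → ∀ (n : ℕ) (σ κ ρ b₁ c₁ : ℝ), 1 ≤ n → 0 ≤ σ → 0 ≤ κ →
      d * (1 / 2 + n * σ) + κ < ρ → ρ ≤ 1 → b₁ < 1 → 0 ≤ c₁ → c₁ < 2 * b₁ - 1 → ∃ N₀ : ℕ, ∀ N : ℕ, N₀ ≤ N →
        ({m : ℕ | 1 ≤ m ∧ m ≤ N ∧ ¬ ∀ w : ℕ, Common f b₁ ρ N m w → ∀ a : Fin n → ℕ, (∀ i, 1 ≤ a i) →
          |((∏ i, a i : ℕ) : ℝ) - G w| ≤ (w : ℝ) ^ κ →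
          ∀ b : Fin n → ℤ, (∀ i, b i ≠ 0) → (∀ i, |(b i : ℝ)| ≤ ((∏ j, a j : ℕ) : ℝ) ^ σ) →
            1 / 2 * (maxExp b : ℝ) / (H a b : ℝ) ≤ |P a b - 1|}.ncard : ℝ) ≤ N * Real.exp (-(Real.log N ^ c₁))) ∧
    (LM Nat.totient ∧ LM (fun m => ∑ d ∈ m.divisors, d)) ∧
    (∀ α d : ℝ, 0 < α → 1 ≤ d → Expanding (fun v => α * (v : ℝ) ^ d) d) ∧
    (∀ (f : ℕ → ℕ) (b ρ : ℝ) (N m w : ℕ), ρ ≤ 1 → Real.exp (Real.log N ^ b) ≤ (w : ℝ) → w ∣ f m → Common f b ρ N m w) ∧
    ∀ (b ρ : ℝ) (N m : ℕ), ρ ≤ 1 → ∀ x : (ZMod m)ˣ, Real.exp (Real.log N ^ b) ≤ (orderOf x : ℝ) →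
      Common Nat.totient b ρ N m (orderOf x) := by
  refine ⟨?_, ⟨lm_totient, lm_sigma⟩, fun α d hα hd => expanding_pow hα hd, fun f b ρ N m w hρ hw hd => common_of_dvd hρ hw hd,
    fun b ρ N m hρ x hx => common_order hρ x hx⟩
  refine fun f hf G d hG n σ κ ρ b₁ c₁ hn hσ hκ h1 hρ hb hc hcb => ?_
  refine common_good (fun a : Fin n → ℕ => ∀ i, 1 ≤ a i)
    (fun a : Fin n → ℕ => ∀ b : Fin n → ℤ, (∀ i, b i ≠ 0) → (∀ i, |(b i : ℝ)| ≤ ((∏ j, a j : ℕ) : ℝ) ^ σ) →
      1 / 2 * (maxExp b : ℝ) / (H a b : ℝ) ≤ |P a b - 1|) (fun a => ((∏ i, a i : ℕ) : ℝ)) hf hG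
    (s := 1 / 2 + n * σ) (by positivity) hκ h1 hρ hb hc hcb (fun ε hε => ?_)
  obtain ⟨K, hK⟩ := WindowsWithoutExceptions.count n hn σ hσ ε hε
  refine ⟨K, fun X hX => ?_⟩
  obtain ⟨h2, h3⟩ := hK X hX
  have he : {a : Fin n → ℕ | ((∀ i, 1 ≤ a i) ∧ ¬ ∀ b : Fin n → ℤ, (∀ i, b i ≠ 0) →
      (∀ i, |(b i : ℝ)| ≤ ((∏ j, a j : ℕ) : ℝ) ^ σ) → 1 / 2 * (maxExp b : ℝ) / (H a b : ℝ) ≤ |P a b - 1|) ∧
      ((∏ i, a i : ℕ) : ℝ) ≤ X} ⊆
      {a | a ∈ WindowsWithoutExceptions.Exc n σ ∧ ((∏ j, a j : ℕ) : ℝ) ≤ X} := by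
    rintro a ⟨⟨g1, g2⟩, g3⟩
    push Not at g2
    obtain ⟨b, g4, g5, g6⟩ := g2
    exact ⟨⟨g1, b, g4, g5, g6⟩, g3⟩
  refine ⟨h2.subset he, le_trans ?_ h3⟩
  exact_mod_cast Set.ncard_le_ncard he h2

end Pool.Agent.Results.MP_e07dae_nt.CommonFactors
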